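import Pool.Agent.Helper91.LC.Defs

/-! LC-1: Ahlfors' inequality (MP_599705_an) -/

set_option autoImplicit false

namespace Pool.Agent.Helper12.LC

open Complex Metric Set Filter Topology
open scoped ComplexConjugate

/-- the local step: `|G'|(1 - |z|²) / (2 |G - p| (K - log |G - p|))` has no local maximum with
a value `> 1` -/
theorem no_max {G : ℂ → ℂ} {z1 p : ℂ} (hz1 : ‖z1‖ < 1)
    (hG : ∀ᶠ z in 𝓝 z1, DifferentiableAt ℂ G z) (hp : G z1 ≠ p) {K m : ℝ} (hm : 1 < m)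
    (hK : Real.log ‖G z1 - p‖ < K)
    (hle : ∀ᶠ z in 𝓝 z1, ‖deriv G z‖ * (1 - ‖z‖ ^ 2) ≤
      m * (2 * ‖G z - p‖ * (K - Real.log ‖G z - p‖)))
    (heq : ‖deriv G z1‖ * (1 - ‖z1‖ ^ 2) =
      m * (2 * ‖G z1 - p‖ * (K - Real.log ‖G z1 - p‖))) : False := by
  have hw0 : G z1 - p ≠ 0 := sub_ne_zero.2 hp
  have hw0' : 0 < ‖G z1 - p‖ := norm_pos_iff.2 hw0
  set w0 : ℂ := G z1 - p with hw0def
  set c0 : ℝ := K - Real.log ‖w0‖ with hc0def
  have hc0 : 0 < c0 := by rw [hc0def]; linarith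
  have hGc : ContinuousAt G z1 := hG.self_of_nhds.continuousAt
  set ℓ : ℂ → ℂ := fun z => Complex.log ((G z - p) / w0) with hℓ
  set D : ℂ → ℂ := fun z => 2 * c0 - ℓ z with hD
  set N : ℂ → ℂ := fun z => 1 - conj z1 * z with hN
  have hratio : (G z1 - p) / w0 = 1 := div_self hw0
  have hrc : ContinuousAt (fun z => (G z - p) / w0) z1 := (hGc.sub continuousAt_const).div_const _
  have ev1 : ∀ᶠ z in 𝓝 z1, (G z - p) / w0 ∈ slitPlane := by
    apply hrc.eventually_mem
    rw [hratio]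
    exact isOpen_slitPlane.mem_nhds one_mem_slitPlane
  have hℓ1 : ℓ z1 = 0 := by
    simp only [hℓ, hratio, Complex.log_one]
  have ev2 : ∀ᶠ z in 𝓝 z1, HasDerivAt ℓ (deriv G z / (G z - p)) z := by
    filter_upwards [ev1, hG] with z h1 h2
    have h3 := ((h2.hasDerivAt.sub_const p).div_const w0).clog h1
    have h4 : deriv G z / w0 / ((G z - p) / w0) = deriv G z / (G z - p) := by
      rw [div_div_div_cancel_right₀ hw0]
    rw [h4] at h3
    exact h3
  have hℓc : ContinuousAt ℓ z1 := ev2.self_of_nhds.continuousAt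
  have ev3 : ∀ᶠ z in 𝓝 z1, D z ≠ 0 := by
    have h1 : ContinuousAt D z1 := continuousAt_const.sub hℓc
    apply h1.eventually_ne
    simp only [hD, hℓ1, sub_zero]
    exact mul_ne_zero two_ne_zero (by exact_mod_cast hc0.ne')
  have hN1 : N z1 = ((1 - ‖z1‖ ^ 2 : ℝ) : ℂ) := by
    simp only [hN]
    rw [← Complex.normSq_eq_conj_mul_self, Complex.normSq_eq_norm_sq]
    push_cast
    ring
  have hpos1 : 0 < 1 - ‖z1‖ ^ 2 := by
    have := norm_nonneg z1
    nlinarith
  have hNc : Continuous N := by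
    simp only [hN]
    fun_prop
  have ev4 : ∀ᶠ z in 𝓝 z1, N z ≠ 0 := by
    apply hNc.continuousAt.eventually_ne
    rw [hN1]
    exact_mod_cast hpos1.ne'
  have ev5 : ∀ᶠ z in 𝓝 z1, G z - p ≠ 0 := by
    apply (hGc.sub continuousAt_const).eventually_ne
    exact hw0
  have ev6 : ∀ᶠ z in 𝓝 z1, 0 < 1 - ‖z‖ ^ 2 := by
    have h1 : ContinuousAt (fun z : ℂ => 1 - ‖z‖ ^ 2) z1 := by fun_prop
    exact Filter.Tendsto.eventually_const_lt hpos1 h1
  -- growth of `φ` and `ψ`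
  have hφd : HasDerivAt (fun z => ℓ z / D z) (deriv G z1 / w0 / (2 * c0)) z1 := by
    have h1 := ev2.self_of_nhds
    have h2 : HasDerivAt D (-(deriv G z1 / (G z1 - p))) z1 := by
      have := (hasDerivAt_const z1 (2 * (c0 : ℂ))).sub h1
      rw [zero_sub] at this
      exact this
    have h3 := h1.div h2 ev3.self_of_nhds
    have h4 : D z1 = 2 * c0 := by simp only [hD, hℓ1, sub_zero]
    have h5 : (2 * c0 : ℂ) ≠ 0 := mul_ne_zero two_ne_zero (by exact_mod_cast hc0.ne')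
    rw [hℓ1, h4] at h3
    have h6 : (deriv G z1 / (G z1 - p) * (2 * ↑c0) - 0 * -(deriv G z1 / (G z1 - p))) /
        (2 * ↑c0) ^ 2 = deriv G z1 / w0 / (2 * c0) := by
      have h7 : (c0 : ℂ) ≠ 0 := by exact_mod_cast hc0.ne'
      rw [← hw0def, zero_mul, sub_zero]
      field_simp
    rw [h6] at h3
    exact h3
  have hψd : HasDerivAt (fun z => (z - z1) / N z) (1 / ((1 - ‖z1‖ ^ 2 : ℝ) : ℂ)) z1 := by
    have h1 : HasDerivAt (fun z : ℂ => z - z1) 1 z1 := (hasDerivAt_id z1).sub_const z1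
    have h2 : HasDerivAt N (-(conj z1)) z1 := by
      have := (hasDerivAt_const z1 (1 : ℂ)).sub ((hasDerivAt_id z1).const_mul (conj z1))
      simp only [mul_one, zero_sub] at this
      exact this
    have h3 := h1.div h2 ev4.self_of_nhds
    have h6 : (1 * N z1 - (z1 - z1) * -(conj z1)) / N z1 ^ 2 = 1 / ((1 - ‖z1‖ ^ 2 : ℝ) : ℂ) := by
      rw [hN1]
      have : ((1 - ‖z1‖ ^ 2 : ℝ) : ℂ) ≠ 0 := by exact_mod_cast hpos1.ne'
      field_simp
      ring
    rw [h6] at h3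
    exact h3
  have hlt : ‖(1 / ((1 - ‖z1‖ ^ 2 : ℝ) : ℂ))‖ < ‖deriv G z1 / w0 / (2 * c0)‖ := by
    rw [norm_div, norm_div, norm_div, norm_mul, norm_one, Complex.norm_real, Complex.norm_real,
      Complex.norm_ofNat, Real.norm_of_nonneg hpos1.le, Real.norm_of_nonneg hc0.le,
      div_div, div_lt_div_iff₀ hpos1 (by positivity), one_mul, heq]
    have : 0 < ‖w0‖ * (2 * c0) := by positivity
    calc ‖w0‖ * (2 * c0) = 1 * (‖w0‖ * (2 * c0)) := (one_mul _).symm
      _ < m * (‖w0‖ * (2 * c0)) := by exact mul_lt_mul_of_pos_right hm this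
      _ = m * (2 * ‖w0‖ * (K - Real.log ‖w0‖)) := by rw [hc0def]; ring
  have ev7 : ∀ᶠ z in 𝓝[≠] z1, ‖(z - z1) / N z‖ < ‖ℓ z / D z‖ := by
    have t1 := (hasDerivAt_iff_tendsto_slope.1 hφd).norm
    have t2 := (hasDerivAt_iff_tendsto_slope.1 hψd).norm
    filter_upwards [t2.eventually_lt t1 hlt, self_mem_nhdsWithin] with z h1 h2
    have h3 : z - z1 ≠ 0 := sub_ne_zero.2 h2
    rw [slope_def_field, slope_def_field, sub_self, zero_div, sub_zero, hℓ1, zero_div, sub_zero,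
      norm_div, norm_div _ (z - z1)] at h1
    exact (div_lt_div_iff_of_pos_right (norm_pos_iff.2 h3)).1 h1
  -- the function with the maximum
  set Q : ℂ → ℂ := fun z => deriv G z / (G z - p) * N z ^ 2 / D z ^ 2 with hQ
  have hQ1 : ‖Q z1‖ = m * (1 - ‖z1‖ ^ 2) / (2 * c0) := by
    simp only [hQ]
    have h4 : D z1 = 2 * c0 := by simp only [hD, hℓ1, sub_zero]
    rw [norm_div, norm_mul, norm_div, norm_pow, norm_pow, hN1, h4, norm_mul, Complex.norm_real,
      Complex.norm_real, Complex.norm_ofNat, Real.norm_of_nonneg hpos1.le,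
      Real.norm_of_nonneg hc0.le]
    have h5 : ‖deriv G z1‖ = m * (2 * ‖w0‖ * c0) / (1 - ‖z1‖ ^ 2) := by
      rw [eq_div_iff hpos1.ne', heq]
    rw [← hw0def, h5]
    field_simp
  have hm0 : 0 < m := by linarith
  have hQ1pos : 0 < ‖Q z1‖ := by
    rw [hQ1]
    positivity
  -- the bound for `Q`
  have ev8 : ∀ᶠ z in 𝓝 z1, ∃ r s : ℝ, r = ‖ℓ z / D z‖ ∧ s = ‖(z - z1) / N z‖ ∧ 0 < 1 - s ^ 2 ∧
      ‖Q z‖ ≤ ‖Q z1‖ * ((1 - r ^ 2) / (1 - s ^ 2)) := by
    filter_upwards [ev3, ev4, ev5, ev6, hle] with z h3 h4 h5 h6 h7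
    refine ⟨_, _, rfl, rfl, ?_⟩
    have a3 : 0 < ‖D z‖ := norm_pos_iff.2 h3
    have a4 : 0 < ‖N z‖ := norm_pos_iff.2 h4
    have a5 : 0 < ‖G z - p‖ := norm_pos_iff.2 h5
    have e1 : ‖N z‖ ^ 2 - ‖z - z1‖ ^ 2 = (1 - ‖z1‖ ^ 2) * (1 - ‖z‖ ^ 2) := by
      simp only [hN]
      rw [← Complex.normSq_eq_norm_sq, ← Complex.normSq_eq_norm_sq, ← Complex.normSq_eq_norm_sq,
        ← Complex.normSq_eq_norm_sq]
      simp only [Complex.normSq_apply, Complex.sub_re, Complex.sub_im, Complex.mul_re,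
        Complex.mul_im, Complex.conj_re, Complex.conj_im, Complex.one_re, Complex.one_im]
      ring
    have e2 : ‖D z‖ ^ 2 - ‖ℓ z‖ ^ 2 = 4 * c0 * (K - Real.log ‖G z - p‖) := by
      have hre : (ℓ z).re = Real.log ‖G z - p‖ - Real.log ‖w0‖ := by
        simp only [hℓ]
        rw [Complex.log_re, norm_div, Real.log_div a5.ne' hw0'.ne']
      simp only [hD]
      rw [← Complex.normSq_eq_norm_sq, ← Complex.normSq_eq_norm_sq]
      have h8 : 4 * c0 * (K - Real.log ‖G z - p‖) = 4 * c0 * (c0 - (ℓ z).re) := by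
        rw [hre, hc0def]
        ring
      rw [h8]
      simp only [Complex.normSq_apply, Complex.sub_re, Complex.sub_im, Complex.mul_re,
        Complex.mul_im, Complex.ofReal_re, Complex.ofReal_im, Complex.re_ofNat, Complex.im_ofNat]
      ring
    have e3 : 1 - ‖(z - z1) / N z‖ ^ 2 = (1 - ‖z1‖ ^ 2) * (1 - ‖z‖ ^ 2) / ‖N z‖ ^ 2 := by
      rw [← e1, norm_div]
      field_simp
    have e4 : 1 - ‖ℓ z / D z‖ ^ 2 = 4 * c0 * (K - Real.log ‖G z - p‖) / ‖D z‖ ^ 2 := by
      rw [← e2, norm_div]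
      field_simp
    have e5 : 0 < (1 - ‖z1‖ ^ 2) * (1 - ‖z‖ ^ 2) / ‖N z‖ ^ 2 := by positivity
    refine ⟨by rw [e3]; exact e5, ?_⟩
    rw [e3, e4, hQ1]
    have e6 : ‖Q z‖ = ‖deriv G z‖ / ‖G z - p‖ * ‖N z‖ ^ 2 / ‖D z‖ ^ 2 := by
      simp only [hQ]
      rw [norm_div, norm_mul, norm_div, norm_pow, norm_pow]
    rw [e6]
    have e7 : m * (1 - ‖z1‖ ^ 2) / (2 * c0) * (4 * c0 * (K - Real.log ‖G z - p‖) / ‖D z‖ ^ 2 /
        ((1 - ‖z1‖ ^ 2) * (1 - ‖z‖ ^ 2) / ‖N z‖ ^ 2)) =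
        (m * (2 * ‖G z - p‖ * (K - Real.log ‖G z - p‖))) / (1 - ‖z‖ ^ 2) / ‖G z - p‖ *
          ‖N z‖ ^ 2 / ‖D z‖ ^ 2 := by
      field_simp
      ring
    rw [e7]
    have e8 : ‖deriv G z‖ ≤
        (m * (2 * ‖G z - p‖ * (K - Real.log ‖G z - p‖))) / (1 - ‖z‖ ^ 2) := by
      rw [le_div_iff₀ h6]
      exact h7
    gcongr
  -- strict inequality off `z1`
  have ev9 : ∀ᶠ z in 𝓝[≠] z1, ‖Q z‖ < ‖Q z1‖ := by
    filter_upwards [ev7, ev8.filter_mono nhdsWithin_le_nhds] with z h1 ⟨r, s, hr, hs, hs1, h2⟩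
    rw [← hr, ← hs] at h1
    refine lt_of_le_of_lt h2 ?_
    have hs0 : 0 ≤ s := by rw [hs]; exact norm_nonneg _
    have h3 : (1 - r ^ 2) / (1 - s ^ 2) < 1 := by
      rw [div_lt_one hs1]
      nlinarith
    calc ‖Q z1‖ * ((1 - r ^ 2) / (1 - s ^ 2)) < ‖Q z1‖ * 1 :=
          mul_lt_mul_of_pos_left h3 hQ1pos
      _ = ‖Q z1‖ := mul_one _
  have hmax : IsLocalMax (norm ∘ Q) z1 := by
    have h1 := eventually_nhdsWithin_iff.1 ev9
    filter_upwards [h1] with z h2
    by_cases hz : z = z1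
    · rw [hz]
    · exact (h2 hz).le
  have hQd : ∀ᶠ z in 𝓝 z1, DifferentiableAt ℂ Q z := by
    have hGa : ∀ᶠ z in 𝓝 z1, DifferentiableAt ℂ (deriv G) z := by
      filter_upwards [hG.eventually_nhds] with z h1
      exact (analyticAt_iff_eventually_differentiableAt.2 h1).deriv.differentiableAt
    filter_upwards [hGa, hG, ev2, ev3, ev5] with z h1 h2 h3 h4 h5
    have h6 : DifferentiableAt ℂ N z := by
      simp only [hN]
      fun_prop
    have h7 : DifferentiableAt ℂ D z := by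
      simp only [hD]
      exact (differentiableAt_const _).sub h3.differentiableAt
    exact ((h1.div (h2.sub_const p) h5).mul (h6.pow 2)).div (h7.pow 2) (pow_ne_zero 2 h4)
  have hconst := Complex.eventually_eq_of_isLocalMax_norm hQd hmax
  have h1 : ∀ᶠ z in 𝓝[≠] z1, False := by
    filter_upwards [ev9, hconst.filter_mono nhdsWithin_le_nhds] with z h2 h3
    rw [h3] at h2
    exact lt_irrefl _ h2
  rw [eventually_false_iff_eq_bot] at h1
  exact (NeBot.ne inferInstance) h1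

/-- `t (K - log t)` is increasing for `t ≤ e^(K-1)` -/
theorem mono_aux {K s t : ℝ} (hs : 0 < s) (hst : s ≤ t) (ht : Real.log t ≤ K - 1) :
    s * (K - Real.log s) ≤ t * (K - Real.log t) := by
  have ht0 : 0 < t := lt_of_lt_of_le hs hst
  have h1 : Real.log (t / s) ≤ t / s - 1 := Real.log_le_sub_one_of_pos (by positivity)
  rw [Real.log_div ht0.ne' hs.ne'] at h1
  have h2 : s * (Real.log t - Real.log s) ≤ t - s := by
    calc s * (Real.log t - Real.log s) ≤ s * (t / s - 1) := mul_le_mul_of_nonneg_left h1 hs.le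
      _ = t - s := by field_simp
  nlinarith [mul_nonneg (sub_nonneg.2 hst) (sub_nonneg.2 ht)]

/-- the inequality for functions analytic in a bigger disc, `K > 1` -/
theorem key {G : ℂ → ℂ} {R : ℝ} (hR : 1 < R) (hG : DifferentiableOn ℂ G (ball 0 R)) {E : Set ℂ}
    (hE : IsClosed E) (hne : E.Nonempty) (hcov : ∀ w, infDist w E ≤ 1)
    (hdis : ∀ z ∈ ball (0 : ℂ) R, G z ∉ E) {K : ℝ} (hK : 1 < K) {z : ℂ}
    (hz : z ∈ ball (0 : ℂ) 1) :
    ‖deriv G z‖ * (1 - ‖z‖ ^ 2) ≤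
      2 * infDist (G z) E * (K - Real.log (infDist (G z) E)) := by
  have hsub : closedBall (0 : ℂ) 1 ⊆ ball 0 R := closedBall_subset_ball hR
  have hδpos : ∀ z ∈ closedBall (0 : ℂ) 1, 0 < infDist (G z) E := fun z hz =>
    (hE.notMem_iff_infDist_pos hne).1 (hdis z (hsub hz))
  have hlog : ∀ w, Real.log (infDist w E) ≤ 0 := fun w =>
    Real.log_nonpos infDist_nonneg (hcov w)
  set B : ℂ → ℝ := fun z => 2 * infDist (G z) E * (K - Real.log (infDist (G z) E)) with hB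
  have hBpos : ∀ z ∈ closedBall (0 : ℂ) 1, 0 < B z := by
    intro z hz
    simp only [hB]
    have h1 := hδpos z hz
    have h2 := hlog (G z)
    have h3 : 0 < K - Real.log (infDist (G z) E) := by linarith
    positivity
  have hGc : ContinuousOn G (closedBall 0 1) := hG.continuousOn.mono hsub
  have hG'c : ContinuousOn (deriv G) (closedBall 0 1) :=
    (hG.deriv isOpen_ball).continuousOn.mono hsub
  have hδc : ContinuousOn (fun z => infDist (G z) E) (closedBall 0 1) :=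
    (continuous_infDist_pt E).comp_continuousOn hGc
  have hBc : ContinuousOn B (closedBall 0 1) := by
    simp only [hB]
    exact (continuousOn_const.mul hδc).mul (continuousOn_const.sub
      (hδc.log fun z hz => (hδpos z hz).ne'))
  have huc : ContinuousOn (fun z => ‖deriv G z‖ * (1 - ‖z‖ ^ 2) / B z) (closedBall 0 1) := by
    refine ContinuousOn.div ?_ hBc fun z hz => (hBpos z hz).ne'
    exact hG'c.norm.mul (by fun_prop)
  obtain ⟨z1, hz1, hmax⟩ := (isCompact_closedBall (0 : ℂ) 1).exists_isMaxOn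
    ⟨0, by simp⟩ huc
  set m : ℝ := ‖deriv G z1‖ * (1 - ‖z1‖ ^ 2) / B z1 with hm
  have hle : ∀ z ∈ closedBall (0 : ℂ) 1, ‖deriv G z‖ * (1 - ‖z‖ ^ 2) ≤ m * B z := by
    intro z hz
    have h1 : ‖deriv G z‖ * (1 - ‖z‖ ^ 2) / B z ≤ m := hmax hz
    rwa [div_le_iff₀ (hBpos z hz)] at h1
  rcases le_or_gt m 1 with h1 | h1
  · have h2 := hle z (ball_subset_closedBall hz)
    have h3 := hBpos z (ball_subset_closedBall hz)
    calc ‖deriv G z‖ * (1 - ‖z‖ ^ 2) ≤ m * B z := h2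
      _ ≤ 1 * B z := mul_le_mul_of_nonneg_right h1 h3.le
      _ = B z := one_mul _
  · exfalso
    have hz1' : ‖z1‖ < 1 := by
      have h2 : ‖z1‖ ≤ 1 := by simpa using hz1
      rcases lt_or_eq_of_le h2 with h3 | h3
      · exact h3
      · rw [hm, h3] at h1
        norm_num at h1
    obtain ⟨p, hpE, hp⟩ := hE.exists_infDist_eq_dist hne (G z1)
    rw [dist_eq_norm] at hp
    have hδ1 := hδpos z1 hz1
    have hnb : ball (0 : ℂ) 1 ∈ 𝓝 z1 := isOpen_ball.mem_nhds (by simpa using hz1')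
    have hGat : ∀ᶠ z in 𝓝 z1, DifferentiableAt ℂ G z := by
      filter_upwards [hnb] with z hz
      exact hG.differentiableAt (isOpen_ball.mem_nhds (hsub (ball_subset_closedBall hz)))
    refine no_max (p := p) (K := K) (m := m) hz1' hGat ?_ h1 ?_ ?_ ?_
    · intro h2
      rw [h2, sub_self, norm_zero] at hp
      rw [h2] at hδ1
      linarith
    · rw [← hp]
      have := hlog (G z1)
      linarith
    · have hc : ContinuousAt (fun z => ‖G z - p‖) z1 :=
        (hGat.self_of_nhds.continuousAt.sub continuousAt_const).norm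
      have h2 : ‖G z1 - p‖ < Real.exp (K - 1) := by
        rw [← hp]
        calc infDist (G z1) E ≤ 1 := hcov _
          _ < Real.exp (K - 1) := Real.one_lt_exp_iff.2 (by linarith)
      filter_upwards [hnb, Filter.Tendsto.eventually_lt_const h2 hc] with z hz h3
      have hzc := ball_subset_closedBall hz
      refine (hle z hzc).trans ?_
      refine mul_le_mul_of_nonneg_left ?_ (by linarith)
      simp only [hB]
      have h4 : infDist (G z) E ≤ ‖G z - p‖ := by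
        rw [← dist_eq_norm]
        exact infDist_le_dist_of_mem hpE
      have h5 : 0 < ‖G z - p‖ := lt_of_lt_of_le (hδpos z hzc) h4
      have h6 : Real.log ‖G z - p‖ ≤ K - 1 := by
        rw [Real.log_le_iff_le_exp h5]
        exact h3.le
      have h7 := mono_aux (hδpos z hzc) h4 h6
      calc 2 * infDist (G z) E * (K - Real.log (infDist (G z) E))
          = 2 * (infDist (G z) E * (K - Real.log (infDist (G z) E))) := by ring
        _ ≤ 2 * (‖G z - p‖ * (K - Real.log ‖G z - p‖)) := by linarith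
        _ = 2 * ‖G z - p‖ * (K - Real.log ‖G z - p‖) := by ring
    · rw [← hp]
      rw [hm, div_mul_cancel₀ _ (hBpos z1 hz1).ne']

/-- Ahlfors' inequality -/
theorem ahlfors {F : ℂ → ℂ} (hF : DifferentiableOn ℂ F (ball 0 1)) {E : Set ℂ}
    (hE : IsClosed E) (hne : E.Nonempty) (hcov : ∀ w, infDist w E ≤ 1)
    (hdis : ∀ z ∈ ball (0 : ℂ) 1, F z ∉ E) {z : ℂ} (hz : z ∈ ball (0 : ℂ) 1) :
    ‖deriv F z‖ * (1 - ‖z‖ ^ 2) ≤
      2 * infDist (F z) E * (1 - Real.log (infDist (F z) E)) := by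
  have hz' : ‖z‖ < 1 := by simpa using hz
  -- the inequality for `F (s z)`, `s < 1`
  have hs : ∀ s : ℝ, 0 < s → s < 1 → s * ‖deriv F (s * z)‖ * (1 - ‖z‖ ^ 2) ≤
      2 * infDist (F (s * z)) E * (1 - Real.log (infDist (F (s * z)) E)) := by
    intro s hs0 hs1
    have hR : 1 < 1 / s := by rw [lt_div_iff₀ hs0]; linarith
    have hmaps : ∀ w ∈ ball (0 : ℂ) (1 / s), (s : ℂ) * w ∈ ball (0 : ℂ) 1 := by
      intro w hw
      rw [mem_ball_zero_iff] at hw ⊢
      rw [norm_mul, Complex.norm_real, Real.norm_of_nonneg hs0.le]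
      rw [lt_div_iff₀ hs0] at hw
      linarith
    have hG : DifferentiableOn ℂ (fun w => F (s * w)) (ball 0 (1 / s)) :=
      hF.comp (by fun_prop) hmaps
    have hd : deriv (fun w => F (s * w)) z = s * deriv F (s * z) := by
      have h1 : DifferentiableAt ℂ F (s * z) :=
        hF.differentiableAt (isOpen_ball.mem_nhds (hmaps z (by
          rw [mem_ball_zero_iff]; linarith)))
      have h2 := h1.hasDerivAt.comp z ((hasDerivAt_id z).const_mul (s : ℂ))
      rw [mul_one, mul_comm] at h2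
      exact h2.deriv
    have h3 : ∀ K : ℝ, 1 < K → s * ‖deriv F (s * z)‖ * (1 - ‖z‖ ^ 2) ≤
        2 * infDist (F (s * z)) E * (K - Real.log (infDist (F (s * z)) E)) := by
      intro K hK
      have h4 := key hR hG hE hne hcov (fun w hw => hdis _ (hmaps w hw)) hK hz
      rw [hd, norm_mul, Complex.norm_real, Real.norm_of_nonneg hs0.le] at h4
      exact h4
    refine le_of_forall_pos_le_add fun ε hε => ?_
    refine (h3 (1 + ε / 2) (by linarith)).trans ?_
    have h5 := hcov (F (s * z))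
    have h6 : (0 : ℝ) ≤ infDist (F (s * z)) E := infDist_nonneg
    nlinarith
  -- the limit `s → 1`
  have hcont : ContinuousAt (fun s : ℝ => (s : ℂ) * z) 1 := by fun_prop
  have h1z : ((1 : ℝ) : ℂ) * z = z := by rw [Complex.ofReal_one, one_mul]
  have hFd : DifferentiableAt ℂ F z := hF.differentiableAt (isOpen_ball.mem_nhds hz)
  have hF'd : DifferentiableAt ℂ (deriv F) z :=
    (hF.deriv isOpen_ball).differentiableAt (isOpen_ball.mem_nhds hz)
  have c1 : Tendsto (fun s : ℝ => F (s * z)) (𝓝 1) (𝓝 (F z)) := by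
    have h2 : ContinuousAt F (((1 : ℝ) : ℂ) * z) := by rw [h1z]; exact hFd.continuousAt
    have h3 : ContinuousAt (fun s : ℝ => F ((s : ℂ) * z)) 1 :=
      ContinuousAt.comp (f := fun s : ℝ => (s : ℂ) * z) h2 hcont
    have h4 := h3.tendsto
    rw [h1z] at h4
    exact h4
  have c2 : Tendsto (fun s : ℝ => deriv F (s * z)) (𝓝 1) (𝓝 (deriv F z)) := by
    have h2 : ContinuousAt (deriv F) (((1 : ℝ) : ℂ) * z) := by rw [h1z]; exact hF'd.continuousAt
    have h3 : ContinuousAt (fun s : ℝ => deriv F ((s : ℂ) * z)) 1 :=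
      ContinuousAt.comp (f := fun s : ℝ => (s : ℂ) * z) h2 hcont
    have h4 := h3.tendsto
    rw [h1z] at h4
    exact h4
  have hδ : 0 < infDist (F z) E := (hE.notMem_iff_infDist_pos hne).1 (hdis z hz)
  have c3 : Tendsto (fun s : ℝ => infDist (F (s * z)) E) (𝓝 1) (𝓝 (infDist (F z) E)) :=
    ((continuous_infDist_pt E).tendsto _).comp c1
  have c4 : Tendsto (fun s : ℝ => s * ‖deriv F (s * z)‖ * (1 - ‖z‖ ^ 2)) (𝓝 1)
      (𝓝 (1 * ‖deriv F z‖ * (1 - ‖z‖ ^ 2))) :=
    (tendsto_id.mul c2.norm).mul_const _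
  have c5 : Tendsto (fun s : ℝ => 2 * infDist (F (s * z)) E *
      (1 - Real.log (infDist (F (s * z)) E))) (𝓝 1)
      (𝓝 (2 * infDist (F z) E * (1 - Real.log (infDist (F z) E)))) :=
    (c3.const_mul 2).mul ((c3.log hδ.ne').const_sub 1)
  have h6 : ∀ᶠ s : ℝ in 𝓝[<] 1, s * ‖deriv F (s * z)‖ * (1 - ‖z‖ ^ 2) ≤
      2 * infDist (F (s * z)) E * (1 - Real.log (infDist (F (s * z)) E)) := by
    filter_upwards [Ioo_mem_nhdsLT (show (0 : ℝ) < 1 by norm_num)] with s hs'
    exact hs s hs'.1 hs'.2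
  have h7 := le_of_tendsto_of_tendsto (c4.mono_left nhdsWithin_le_nhds)
    (c5.mono_left nhdsWithin_le_nhds) h6
  rwa [one_mul] at h7

end Pool.Agent.Helper12.LC
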